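import Pool.Agent.Run7.h417.Final

/-!
# The quantum permutation algebra is inner linear

`Run7.h417.QPerm n` is the Hopf star-algebra of the quantum permutation group on `n` points,
presented by the coordinates of a magic unitary.  For every `n ≥ 1` it has an inner faithful
representation by two by two matrices: every surjective morphism of Hopf star-algebras through
which the representation factors is an isomorphism.
-/

namespace Pool.Agent.Results.MP_c25bf3_al.InnerLinearQPerm

open Run7.h417

/-- For every `n ≥ 1` the Hopf star-algebra of the quantum permutation group on `n` points has an
inner faithful representation in the two by two complex matrices. -/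
theorem result (n : ℕ) (hn : 1 ≤ n) :
    ∃ π : QPerm n →⋆ₐ[ℂ] Matrix (Fin 2) (Fin 2) ℂ, InnerFaithful π :=
  main n hn

end Pool.Agent.Results.MP_c25bf3_al.InnerLinearQPerm
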